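import Pool.Agent.Work.MP_2738db_nt_ZZ.Interface

/-!
Block SZP of `MP_2738db_nt_ZZ`: `(x - Y) ^ p ≤ 2 ^ (p - 1) (x ^ p - Y ^ p)` for odd `p` and `x ≥ Y`.
-/

set_option autoImplicit false

namespace Pool.Agent.Work.MP_2738db_nt_ZZ.helper2

/-- The same bound for nonnegative `v ≤ u`. -/
private theorem szp_nonneg (p : ℕ) (hp : Odd p) (u v : ℤ) (hv : 0 ≤ v) (huv : v ≤ u) :
    (u - v) ^ p ≤ 2 ^ (p - 1) * (u ^ p - v ^ p) := by
  have h0 : p ≠ 0 := by rintro rfl; exact absurd hp (by decide)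
  have h1 : (u - v) ^ p + v ^ p ≤ (u - v + v) ^ p :=
    pow_add_pow_le (sub_nonneg.mpr huv) hv h0
  rw [sub_add_cancel] at h1
  have h2 : (u - v) ^ p ≤ u ^ p - v ^ p := by linarith
  have h3 : (0 : ℤ) ≤ u ^ p - v ^ p := le_trans (pow_nonneg (sub_nonneg.mpr huv) p) h2
  have h4 : (1 : ℤ) ≤ 2 ^ (p - 1) := one_le_pow₀ (by norm_num)
  calc (u - v) ^ p ≤ u ^ p - v ^ p := h2
    _ = 1 * (u ^ p - v ^ p) := (one_mul _).symm
    _ ≤ 2 ^ (p - 1) * (u ^ p - v ^ p) := mul_le_mul_of_nonneg_right h4 h3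

/-- **SZP** for integers `v ≤ u`. -/
theorem szp_int (p : ℕ) (hp : Odd p) (u v : ℤ) (huv : v ≤ u) :
    (u - v) ^ p ≤ 2 ^ (p - 1) * (u ^ p - v ^ p) := by
  rcases le_total 0 v with hv | hv
  · exact szp_nonneg p hp u v hv huv
  rcases le_total u 0 with hu | hu
  · have h := szp_nonneg p hp (-v) (-u) (by omega) (by omega)
    rw [hp.neg_pow, hp.neg_pow] at h
    have e1 : -v - -u = u - v := by ring
    have e2 : -v ^ p - -u ^ p = u ^ p - v ^ p := by ring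
    rwa [e1, e2] at h
  · have hnv : (0 : ℤ) ≤ -v := by omega
    have h := add_pow_le hu hnv p
    rw [hp.neg_pow] at h
    have e1 : u + -v = u - v := by ring
    have e2 : u ^ p + -v ^ p = u ^ p - v ^ p := by ring
    rwa [e1, e2] at h

/-- **SZP**. -/
theorem szp : Stmt_Szp := by
  intro p x Y D hp hD
  rw [← hD]
  exact szp_int p hp x Y (by omega)

end Pool.Agent.Work.MP_2738db_nt_ZZ.helper2
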